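import Mathlib
import Pool.Agent.H302Z.GP.Bdry
import Pool.Agent.H302Z.GP.Shilov

set_option autoImplicit false

open Metric Set Filter Topology Complex

namespace Pool.Agent.Results.MP_264cca_an.ANonUnique

/-! ### Definitions used in the statement -/

/-- `f` is a bounded analytic function on the open unit disc. -/
def BddAnalytic (f : ball (0 : ℂ) 1 → ℂ) : Prop :=
  (∃ F : ℂ → ℂ, DifferentiableOn ℂ F (ball (0 : ℂ) 1) ∧ ∀ z : ball (0 : ℂ) 1, f z = F z) ∧
    ∃ C : ℝ, ∀ z, ‖f z‖ ≤ C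

theorem BddAnalytic.mul {f g : ball (0 : ℂ) 1 → ℂ} (hf : BddAnalytic f) (hg : BddAnalytic g) :
    BddAnalytic (f * g) := by
  obtain ⟨⟨F, hF, hfF⟩, C, hC⟩ := hf
  obtain ⟨⟨G, hG, hgG⟩, D, hD⟩ := hg
  refine ⟨⟨F * G, hF.mul hG, fun z => by simp [hfF, hgG]⟩, C * D, fun z => ?_⟩
  rw [Pi.mul_apply, norm_mul]
  exact mul_le_mul (hC z) (hD z) (norm_nonneg _) ((norm_nonneg _).trans (hC z))

theorem BddAnalytic.add {f g : ball (0 : ℂ) 1 → ℂ} (hf : BddAnalytic f) (hg : BddAnalytic g) :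
    BddAnalytic (f + g) := by
  obtain ⟨⟨F, hF, hfF⟩, C, hC⟩ := hf
  obtain ⟨⟨G, hG, hgG⟩, D, hD⟩ := hg
  refine ⟨⟨F + G, hF.add hG, fun z => by simp [hfF, hgG]⟩, C + D, fun z => ?_⟩
  exact (norm_add_le _ _).trans (add_le_add (hC z) (hD z))

/-- The algebra `H^∞` of bounded analytic functions on the open unit disc. -/
def Hinf : Subalgebra ℂ (ball (0 : ℂ) 1 → ℂ) where
  carrier := {f | BddAnalytic f}
  mul_mem' := BddAnalytic.mul
  add_mem' := BddAnalytic.add
  algebraMap_mem' := fun c =>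
    ⟨⟨fun _ => c, differentiableOn_const c, fun z => by simp⟩, ‖c‖, fun z => by simp⟩

/-- The maximal ideal space of `H^∞`: all unital multiplicative linear functionals. -/
abbrev MaxSpace : Type := Hinf →ₐ[ℂ] ℂ

/-- The Gelfand (weak-star) topology on the maximal ideal space. -/
noncomputable instance gelfandTopology : TopologicalSpace MaxSpace :=
  TopologicalSpace.induced (fun (m : MaxSpace) (f : Hinf) => m f) inferInstance

/-- The pseudohyperbolic distance `ρ (x, y) = sup {|y f| : ‖f‖ ≤ 1, x f = 0}`. -/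
noncomputable def rho (x y : MaxSpace) : ℝ :=
  sSup {t : ℝ | ∃ f : Hinf, (∀ z, ‖(f : ball (0 : ℂ) 1 → ℂ) z‖ ≤ 1) ∧ x f = 0 ∧ t = ‖y f‖}

/-- The Gleason part of `x`. -/
def part (x : MaxSpace) : Set MaxSpace := {y | rho x y < 1}

/-- `S` is a closed boundary for the algebra of restrictions of `H^∞` to `P`: it is a closed
subset of the closure of `P`, and the supremum of `|f|` over `S` is at least its supremum
over `P`, for every `f`. -/
def IsClosedBoundary (P S : Set MaxSpace) : Prop :=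
  S ⊆ closure P ∧ IsClosed S ∧
    ∀ f : Hinf, ∀ x ∈ P, ∀ ε : ℝ, 0 < ε → ∃ y ∈ S, ‖x f‖ < ‖y f‖ + ε

/-- The Shilov boundary of the algebra of restrictions of `H^∞` to `P`: the intersection of all
closed boundaries. -/
def shilov (P : Set MaxSpace) : Set MaxSpace := {x | ∀ S, IsClosedBoundary P S → x ∈ S}

/-! ### Translation -/

open Pool.Agent.Helper503.Gp Pool.Agent.H302Z.GP

theorem inducing : IsInducing fun (m : MaxSpace) (f : Hinf) => m f := ⟨rfl⟩

theorem closure_iff (y : MaxSpace) (P : Set MaxSpace) :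
    y ∈ closure P ↔ ∀ s : Finset Hinf, ∀ ε : ℝ, 0 < ε → ∃ x ∈ P, ∀ f ∈ s, ‖x f - y f‖ < ε :=
  clos_iff (fun m : MaxSpace => m) inducing y P

theorem ch_ext {φ ψ : (ℂ → ℂ) → ℂ} (hφ : IsChar φ) (hψ : IsChar ψ) (h : ∀ f ∈ HI, φ f = ψ f) :
    φ = ψ := by
  funext f
  by_cases hf : f ∈ HI
  · exact h f hf
  · rw [hφ.2.2.2 f hf, hψ.2.2.2 f hf]

/-- restriction of a function on the plane -/
def res (f : ℂ → ℂ) (hf : f ∈ HI) : Hinf :=
  ⟨fun z => f z, ⟨f, hf.1, fun _ => rfl⟩, by
    obtain ⟨C, hC⟩ := hf.2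
    exact ⟨C, fun z => hC z z.2⟩⟩

open Classical in
/-- extension by zero -/
noncomputable def ex (f : Hinf) (z : ℂ) : ℂ :=
  if h : z ∈ ball (0 : ℂ) 1 then (f : ball (0 : ℂ) 1 → ℂ) ⟨z, h⟩ else 0

theorem ex_apply (f : Hinf) {z : ℂ} (hz : z ∈ ball (0 : ℂ) 1) :
    ex f z = (f : ball (0 : ℂ) 1 → ℂ) ⟨z, hz⟩ := by
  rw [ex, dif_pos hz]

theorem ex_mem (f : Hinf) : ex f ∈ HI := by
  obtain ⟨⟨F, hF, hfF⟩, C, hC⟩ := f.2
  refine ⟨hF.congr fun z hz => ?_, C, fun z hz => ?_⟩
  · rw [ex_apply f hz]; exact hfF ⟨z, hz⟩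
  · rw [ex_apply f hz]; exact hC ⟨z, hz⟩

theorem res_ex (f : Hinf) : res (ex f) (ex_mem f) = f := by
  apply Subtype.ext
  funext z
  exact ex_apply f z.2

open Classical in
/-- the functional on plane functions attached to a character -/
noncomputable def up (x : MaxSpace) (f : ℂ → ℂ) : ℂ := if h : f ∈ HI then x (res f h) else 0

theorem up_apply (x : MaxSpace) {f : ℂ → ℂ} (h : f ∈ HI) : up x f = x (res f h) := by
  rw [up, dif_pos h]

theorem up_ex (x : MaxSpace) (f : Hinf) : up x (ex f) = x f := by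
  rw [up_apply x (ex_mem f), res_ex]

open Classical in
/-- restriction, with junk value off the algebra -/
noncomputable def resd (f : ℂ → ℂ) : Hinf := if h : f ∈ HI then res f h else 0

theorem resd_apply {f : ℂ → ℂ} (h : f ∈ HI) : resd f = res f h := by
  rw [resd, dif_pos h]

theorem up_char (x : MaxSpace) : IsChar (up x) := by
  refine ⟨?_, fun f hf g hg => ⟨?_, ?_, fun h => ?_⟩, fun c f hf => ?_, fun f hf => ?_⟩
  · rw [up_apply x char_le_one]
    exact map_one x
  · rw [up_apply x hf, up_apply x hg, up_apply x (char_le_add hf hg), ← map_add]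
    rfl
  · rw [up_apply x hf, up_apply x hg, up_apply x (char_le_mul hf hg), ← map_mul]
    rfl
  · rw [up_apply x hf, up_apply x hg]
    congr 1
    apply Subtype.ext
    funext z
    exact h z.2
  · rw [up_apply x hf, up_apply x (char_le_smul c hf), ← smul_eq_mul, ← map_smul]
    rfl
  · rw [up, dif_neg hf]

theorem ch_eqOn {φ : (ℂ → ℂ) → ℂ} (hφ : IsChar φ) {f g : ℂ → ℂ} (hf : f ∈ HI) (hg : g ∈ HI)
    (h : ∀ z ∈ ball (0 : ℂ) 1, f z = g z) : φ f = φ g := (hφ.2.1 f hf g hg).2.2 h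

/-- the character attached to a functional on plane functions -/
noncomputable def dn (φ : (ℂ → ℂ) → ℂ) (hφ : IsChar φ) : MaxSpace where
  toFun f := φ (ex f)
  map_one' := by
    rw [← hφ.1]
    exact ch_eqOn hφ (ex_mem _) char_le_one fun z hz => by rw [ex_apply _ hz]; rfl
  map_mul' f g := by
    rw [← (hφ.2.1 _ (ex_mem f) _ (ex_mem g)).2.1]
    refine ch_eqOn hφ (ex_mem _) (char_le_mul (ex_mem f) (ex_mem g)) fun z hz => ?_
    rw [ex_apply _ hz, Pi.mul_apply, ex_apply _ hz, ex_apply _ hz]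
    rfl
  map_zero' := by
    have h0 : (0 : ℂ) • (1 : ℂ → ℂ) ∈ HI := char_le_smul _ char_le_one
    have h1 := hφ.2.2.1 0 1 char_le_one
    rw [zero_mul] at h1
    refine (ch_eqOn hφ (ex_mem _) h0 fun z hz => ?_).trans h1
    rw [ex_apply _ hz]
    simp
  map_add' f g := by
    rw [← (hφ.2.1 _ (ex_mem f) _ (ex_mem g)).1]
    refine ch_eqOn hφ (ex_mem _) (char_le_add (ex_mem f) (ex_mem g)) fun z hz => ?_
    rw [ex_apply _ hz, Pi.add_apply, ex_apply _ hz, ex_apply _ hz]
    rfl
  commutes' c := by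
    have h0 : c • (1 : ℂ → ℂ) ∈ HI := char_le_smul _ char_le_one
    have h1 := hφ.2.2.1 c 1 char_le_one
    rw [hφ.1, mul_one] at h1
    refine (ch_eqOn hφ (ex_mem _) h0 fun z hz => ?_).trans h1
    rw [ex_apply _ hz]
    simp

theorem up_dn {φ : (ℂ → ℂ) → ℂ} (hφ : IsChar φ) : up (dn φ hφ) = φ := by
  refine ch_ext (up_char _) hφ fun f hf => ?_
  rw [up_apply _ hf]
  change φ (ex (res f hf)) = φ f
  refine ch_eqOn hφ (ex_mem _) hf fun z hz => ?_
  rw [ex_apply _ hz]
  rfl

theorem up_inj {x y : MaxSpace} (h : up x = up y) : x = y := by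
  apply AlgHom.ext
  intro f
  rw [← up_ex x, ← up_ex y, h]

theorem rho_lt_iff (x y : MaxSpace) : rho x y < 1 ↔ Gl (up x) (up y) := by
  have hbdd : BddAbove {t : ℝ | ∃ f : Hinf, (∀ z, ‖(f : ball (0 : ℂ) 1 → ℂ) z‖ ≤ 1) ∧
      x f = 0 ∧ t = ‖y f‖} := by
    refine ⟨1, ?_⟩
    rintro t ⟨f, hf, -, rfl⟩
    rw [← up_ex]
    exact char_le (up_char y) (ex_mem f) fun z hz => by rw [ex_apply f hz]; exact hf _
  have h0 : (0 : ℝ) ∈ {t : ℝ | ∃ f : Hinf, (∀ z, ‖(f : ball (0 : ℂ) 1 → ℂ) z‖ ≤ 1) ∧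
      x f = 0 ∧ t = ‖y f‖} := ⟨0, fun z => by simp, map_zero x, by rw [map_zero, norm_zero]⟩
  constructor
  · intro h
    refine gl_of_rho (up_char x) (up_char y) (r := rho x y) (le_csSup hbdd h0) h ?_
    intro g hg hg1 hxg
    refine le_csSup hbdd ⟨res g hg, fun z => hg1 z z.2, ?_, ?_⟩
    · rw [← up_apply x hg]; exact hxg
    · rw [up_apply y hg]
  · intro h
    obtain ⟨r, hr0, hr1, hr⟩ := gl_rho (up_char x) (up_char y) h
    refine lt_of_le_of_lt (csSup_le ⟨0, h0⟩ ?_) hr1
    rintro t ⟨f, hf, hxf, rfl⟩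
    rw [← up_ex]
    refine hr _ (ex_mem f) (fun z hz => ?_) (by rw [up_ex]; exact hxf)
    rw [ex_apply f hz]; exact hf _

theorem compact : CompactSpace MaxSpace := by
  refine ⟨isCompact_iff_ultrafilter_le_nhds.2 fun U _ => ?_⟩
  have hlim : ∀ f : Hinf, ∃ a, Tendsto (fun x : MaxSpace => x f) U (𝓝 a) := by
    intro f
    obtain ⟨C, hC⟩ := (ex_mem f).2
    obtain ⟨a, -, ha⟩ := (isCompact_closedBall (0:ℂ) C).ultrafilter_le_nhds
      (U.map fun x : MaxSpace => x f) (by
        rw [Filter.le_principal_iff, Ultrafilter.coe_map, Filter.mem_map]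
        refine Filter.univ_mem' fun x => mem_closedBall_zero_iff.2 ?_
        change ‖x f‖ ≤ C
        rw [← up_ex]
        exact char_le (up_char x) (ex_mem f) hC)
    exact ⟨a, ha⟩
  choose a ha using hlim
  let m : MaxSpace :=
    { toFun := a
      map_one' := tendsto_nhds_unique (ha 1) (by simpa using tendsto_const_nhds)
      map_mul' := fun f g => tendsto_nhds_unique (ha (f * g)) (by
        simpa only [map_mul] using (ha f).mul (ha g))
      map_zero' := tendsto_nhds_unique (ha 0) (by simpa using tendsto_const_nhds)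
      map_add' := fun f g => tendsto_nhds_unique (ha (f + g)) (by
        simpa only [map_add] using (ha f).add (ha g))
      commutes' := fun c => tendsto_nhds_unique (ha (algebraMap ℂ Hinf c)) (by
        simpa only [AlgHom.commutes] using tendsto_const_nhds) }
  refine ⟨m, mem_univ _, ?_⟩
  have h : Tendsto (fun x : MaxSpace => x) U (𝓝 m) := by
    rw [inducing.tendsto_nhds_iff, tendsto_pi_nhds]
    exact ha
  exact h

/-- the point of the maximal ideal space attached to an ultrafilter and a point -/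
noncomputable def pt (p : Ultrafilter ℕ) (e : ℂ) (he : e ∈ UH) : MaxSpace :=
  dn (lam p e) (lam_char p he)

/-- the analytic disc -/
def disc (p : Ultrafilter ℕ) : Set MaxSpace := {x | ∃ e, ∃ he : e ∈ UH, x = pt p e he}

theorem up_pt (p : Ultrafilter ℕ) (e : ℂ) (he : e ∈ UH) : up (pt p e he) = lam p e := up_dn _

theorem disc_sub (p : Ultrafilter ℕ) : disc p ⊆ part (pt p I I_mem) := by
  rintro _ ⟨e, he, rfl⟩
  refine (rho_lt_iff _ _).2 ?_
  rw [up_pt, up_pt]
  exact lam_gl p I_mem he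

theorem part_sub (p : Ultrafilter ℕ) : part (pt p I I_mem) ⊆ closure (disc p) := by
  intro y hy
  have h1 := (rho_lt_iff _ _).1 hy
  rw [up_pt] at h1
  rw [closure_iff]
  intro s ε hε
  obtain ⟨K, hK0, hK⟩ : ∃ K : ℝ, 0 < K ∧ ∀ f ∈ s, ∀ z ∈ ball (0:ℂ) 1, ‖ex f z‖ ≤ K := by
    choose K hK using fun f : Hinf => (ex_mem f).2
    have h2 : ∀ f, 0 ≤ K f := fun f => (norm_nonneg _).trans (hK f 0 (by simp))
    refine ⟨∑ f ∈ s, K f + 1, add_pos_of_nonneg_of_pos (Finset.sum_nonneg fun f _ => h2 f) one_pos,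
      fun f hf y hy => ?_⟩
    have := Finset.single_le_sum (f := K) (fun f _ => h2 f) hf
    linarith [hK f y hy]
  obtain ⟨e, he, h2⟩ := approx p (up_char y) h1 (η := ε / 2 / K) (by positivity)
  refine ⟨pt p e he, ⟨e, he, rfl⟩, fun f hf => ?_⟩
  have h3 := h2 (((K⁻¹ : ℝ) : ℂ) • ex f) (char_le_smul _ (ex_mem f)) fun z hz => by
    rw [Pi.smul_apply, norm_smul, Complex.norm_real, Real.norm_of_nonneg (by positivity),
      inv_mul_le_iff₀ hK0, mul_one]
    exact hK f hf z hz
  rw [(up_char y).2.2.1 _ _ (ex_mem f), (lam_char p he).2.2.1 _ _ (ex_mem f), ← mul_sub, norm_mul,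
    Complex.norm_real, Real.norm_of_nonneg (by positivity), inv_mul_eq_div,
    div_le_div_iff_of_pos_right hK0, up_ex, norm_sub_rev] at h3
  rw [← up_ex (pt p e he), up_pt]
  linarith

theorem closure_part (p : Ultrafilter ℕ) : closure (part (pt p I I_mem)) = closure (disc p) :=
  subset_antisymm (closure_minimal (part_sub p) isClosed_closure) (closure_mono (disc_sub p))

theorem incl_iff (p : Ultrafilter ℕ) (y : MaxSpace) :
    y ∈ closure (disc p) ↔ Incl (up y) (Disc p) := by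
  classical
  rw [closure_iff]
  constructor
  · intro h s ε hε
    obtain ⟨_, ⟨e, he, rfl⟩, h3⟩ := h (s.image resd) ε hε
    refine ⟨lam p e, ⟨e, he, rfl⟩, fun f hf => ?_⟩
    rw [← up_pt p e he]
    by_cases hfH : f ∈ HI
    · rw [up_apply _ hfH, up_apply _ hfH]
      have h4 := h3 (resd f) (Finset.mem_image_of_mem resd hf)
      rwa [resd_apply hfH] at h4
    · rw [(up_char _).2.2.2 f hfH, (up_char y).2.2.2 f hfH, sub_self, norm_zero]
      exact hε
  · intro h s ε hε
    obtain ⟨_, ⟨e, he, rfl⟩, h3⟩ := h (s.image ex) ε hε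
    refine ⟨pt p e he, ⟨e, he, rfl⟩, fun f hf => ?_⟩
    have h4 := h3 (ex f) (Finset.mem_image_of_mem ex hf)
    rw [up_ex] at h4
    exact h4

theorem closure_sub {p q : Ultrafilter ℕ} (h : Reach p q) : closure (disc q) ⊆ closure (disc p) := by
  refine closure_minimal ?_ isClosed_closure
  rintro _ ⟨e, he, rfl⟩
  rw [incl_iff, up_pt]
  exact reach_incl h he

theorem bd_of_closure {P Q S : Set MaxSpace} (h : closure P = closure Q)
    (hS : IsClosedBoundary P S) : IsClosedBoundary Q S := by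
  refine ⟨h ▸ hS.1, hS.2.1, fun f x hx ε hε => ?_⟩
  have h1 : x ∈ closure P := h ▸ subset_closure hx
  obtain ⟨x', hx', h2⟩ := (closure_iff x P).1 h1 {f} (ε / 2) (by positivity)
  obtain ⟨y, hy, h3⟩ := hS.2.2 f x' hx' (ε / 2) (by positivity)
  have h4 := h2 f (Finset.mem_singleton_self f)
  have h5 := norm_sub_norm_le (x f) (x' f)
  rw [norm_sub_rev] at h5
  exact ⟨y, hy, by linarith⟩

theorem mem_part (x : MaxSpace) : x ∈ part x := (rho_lt_iff _ _).2 (gl_refl _)

/-- The Shilov boundary, as defined above, is a closed boundary, hence the smallest one. -/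
theorem shilov_isClosedBoundary {P : Set MaxSpace} (hP : P.Nonempty) :
    IsClosedBoundary P (shilov P) := by
  have := compact
  obtain ⟨S0, h0, h1⟩ := shilov_thm (fun m : MaxSpace => m) inducing P hP
  have h2 : shilov P = S0 := subset_antisymm (fun x hx => hx S0 h0) fun x hx S hS => h1 S hS hx
  rw [h2]
  exact h0

theorem not_single {x y : MaxSpace} (h : y ∈ closure (part x)) (hne : y ≠ x) : part x ≠ {x} := by
  intro h1
  rw [h1, closure_iff] at h
  apply hne
  apply AlgHom.ext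
  intro f
  rw [← sub_eq_zero, ← norm_le_zero_iff, norm_sub_rev]
  refine le_of_forall_pos_lt_add fun ε hε => ?_
  obtain ⟨z, hz, h2⟩ := h {f} ε hε
  rw [mem_singleton_iff.1 hz] at h2
  rw [zero_add]
  exact h2 f (Finset.mem_singleton_self f)

/-! ### The result -/

/-- There are a point `m` of the maximal ideal space of `H^∞` whose Gleason part is trivial and
two different nontrivial Gleason parts `P`, `Q` such that `m` lies in the Shilov boundary of
`H^∞` restricted to `P` and in the Shilov boundary of `H^∞` restricted to `Q`. -/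
theorem result :
    ∃ m x y : MaxSpace, part m = {m} ∧ part x ≠ {x} ∧ part y ≠ {y} ∧ part x ≠ part y ∧
      m ∈ shilov (part x) ∧ m ∈ shilov (part y) := by
  obtain ⟨p, q, hpq, hqp, hq, hng⟩ := exists_pair
  set x := pt p I I_mem with hx
  set y := pt q I I_mem with hy
  have hcl : closure (part x) = closure (part y) := by
    rw [hx, hy, closure_part, closure_part]
    exact subset_antisymm (closure_sub hqp) (closure_sub hpq)
  have hyx : y ∉ part x := by
    intro h
    have h1 := (rho_lt_iff _ _).1 h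
    rw [up_pt, up_pt] at h1
    exact hng h1
  have hne : y ≠ x := fun h => hyx (h ▸ mem_part y)
  have hS := shilov_isClosedBoundary ⟨y, mem_part y⟩
  obtain ⟨m, hm, -⟩ := hS.2.2 0 y (mem_part y) 1 one_pos
  refine ⟨m, x, y, ?_, not_single (hcl ▸ subset_closure (mem_part y)) hne,
    not_single (hcl ▸ subset_closure (mem_part x)) hne.symm,
    fun h => hyx (h ▸ mem_part y), fun S h => hm S (bd_of_closure hcl h), hm⟩
  by_contra hcon
  have hex : ∃ z ∈ part m, z ≠ m := by
    by_contra h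
    push Not at h
    exact hcon (Set.eq_singleton_iff_unique_mem.2 ⟨mem_part m, h⟩)
  obtain ⟨z, hz, hzm⟩ := hex
  have hm1 : m ∈ closure (disc q) := closure_part q ▸ hS.1 hm
  obtain ⟨B, hB, hB0, c, hc, h1⟩ := off_boundary hq (up_char m) ((incl_iff q m).1 hm1)
    ⟨up z, up_char z, (rho_lt_iff _ _).1 hz, fun h => hzm (up_inj h)⟩
  have hbd : IsClosedBoundary (disc q) (closure (disc q) ∩ {u | c ≤ ‖u (res B hB)‖}) := by
    refine ⟨inter_subset_left, isClosed_closure.inter (isClosed_le continuous_const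
      ((continuous_apply (res B hB)).comp inducing.continuous).norm), ?_⟩
    rintro f _ ⟨e, he, rfl⟩ ε hε
    obtain ⟨e', he', h2, h3⟩ := h1 (ex f) (ex_mem f) e he ε hε
    refine ⟨pt q e' he', ⟨subset_closure ⟨e', he', rfl⟩, ?_⟩, h3⟩
    change c ≤ ‖pt q e' he' (res B hB)‖
    rw [← up_apply _ hB, up_pt]
    exact h2
  have h2 : c ≤ ‖m (res B hB)‖ := (hm _ (bd_of_closure (closure_part q).symm hbd)).2
  rw [← up_apply _ hB, hB0, norm_zero] at h2
  linarith

end Pool.Agent.Results.MP_264cca_an.ANonUnique
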